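import Pool.Agent.H7.GU.Stmts

/-!
# Row PRF of the board `gu8`: the profile of an exceptional vertex
-/

set_option autoImplicit false

open Finset

namespace Pool.GU7

open Pool.Agent.H23.KT Pool.Agent.H46.KW Pool.KQ Pool.GT7

theorem PRF8_cnt {V : Type} {b : ℕ} (P : Fin b → Finset V) (g : V → ℝ)
    (hg : ∀ v, 0 ≤ g v) (y : ℝ) (hy : ∀ i, ((P i).card : ℝ) ≤ y) (I : Finset (Fin b)) :
    ∑ f ∈ Fintype.piFinset P, ∏ i ∈ I, g (f i) ≤
      (∏ i ∈ I, ∑ v ∈ P i, g v) * y ^ (b - I.card) := by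
  classical
  have h1 : ∀ f ∈ Fintype.piFinset P,
      ∏ i ∈ I, g (f i) = ∏ i, (if i ∈ I then g (f i) else 1) := by
    intro f _
    rw [Finset.prod_ite_mem, Finset.univ_inter]
  rw [sum_congr rfl h1,
    ← Finset.prod_univ_sum P (fun i v => if i ∈ I then g v else (1 : ℝ))]
  have h2 : ∏ i, ∑ v ∈ P i, (if i ∈ I then g v else (1 : ℝ)) ≤
      ∏ i, (if i ∈ I then ∑ v ∈ P i, g v else y) := by
    refine prod_le_prod (fun i _ => sum_nonneg fun v _ => ?_) (fun i _ => ?_)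
    · split_ifs
      · exact hg v
      · exact zero_le_one
    · split_ifs
      · exact le_rfl
      · simpa using hy i
  refine h2.trans (le_of_eq ?_)
  rw [prod_ite, prod_const]
  have e1 : univ.filter (fun i => i ∈ I) = I := by
    ext i
    simp
  have e2 : (univ.filter (fun i => i ∉ I)).card = b - I.card := by
    have := card_filter_add_card_filter_not (s := (univ : Finset (Fin b))) (fun i => i ∈ I)
    rw [e1, card_univ, Fintype.card_fin] at this
    omega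
  rw [e1, e2]

theorem PRF8_pow (e : ℝ) (h0 : 0 ≤ e) (h1 : e ≤ 1) (m : ℕ) :
    (1 + e) ^ m ≤ 1 + ((2 : ℝ) ^ m - 1) * e := by
  induction m with
  | zero => simp
  | succ m ih =>
    have h2 : (1 : ℝ) ≤ 2 ^ m := one_le_pow₀ (by norm_num)
    have h3 : ((2 : ℝ) ^ m - 1) * e * e ≤ ((2 : ℝ) ^ m - 1) * e * 1 :=
      mul_le_mul_of_nonneg_left h1 (mul_nonneg (by linarith) h0)
    rw [pow_succ, pow_succ]
    nlinarith [mul_le_mul_of_nonneg_right ih (by linarith : (0 : ℝ) ≤ 1 + e)]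

theorem PRF8_up {V : Type} [DecidableEq V] (h1 : TRVStmt) (G : SimpleGraph V) (p : ℕ)
    (P : Fin (p + 3) → Finset V) (hP : Par G P) (z : V) (y : ℝ)
    (hy : ∀ i, ((P i).card : ℝ) ≤ y) :
    (kc G (un P) (p + 3) : ℝ) ≤ y ^ (p + 3) ∧
    ∑ L ∈ clq G (un P) (p + 3), ((nb G L z).card : ℝ) ≤
      (∑ i, ((nb G (P i) z).card : ℝ)) * y ^ (p + 2) ∧
    ∑ L ∈ clq G (un P) (p + 3), ((nb G L z).card : ℝ) ^ 2 ≤
      (∑ i, ((nb G (P i) z).card : ℝ)) * y ^ (p + 2) +
        ((∑ i, ((nb G (P i) z).card : ℝ)) ^ 2 - ∑ i, ((nb G (P i) z).card : ℝ) ^ 2) *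
          y ^ (p + 1) := by
  classical
  obtain ⟨t1, t2⟩ := h1 G P hP
  have hsub : trv G P ⊆ Fintype.piFinset P := filter_subset _ _
  let g : V → ℝ := fun v => if G.Adj z v then 1 else 0
  have hg : ∀ v, 0 ≤ g v := by
    intro v
    show (0 : ℝ) ≤ if G.Adj z v then 1 else 0
    split_ifs <;> norm_num
  have hg2 : ∀ v, g v * g v = g v := by
    intro v
    show (if G.Adj z v then (1 : ℝ) else 0) * (if G.Adj z v then (1 : ℝ) else 0) =
      if G.Adj z v then (1 : ℝ) else 0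
    split_ifs <;> norm_num
  have hn : ∀ i, ∑ v ∈ P i, g v = ((nb G (P i) z).card : ℝ) := by
    intro i
    have e1 : nb G (P i) z = (P i).filter (fun v => G.Adj z v) := by
      ext v
      rw [mem_nb, mem_filter]
    rw [e1, sum_boole]
  have hB : ∀ f : Fin (p + 3) → V, ((nb G (univ.image f) z).card : ℝ) ≤ ∑ i, g (f i) := by
    intro f
    have e1 : nb G (univ.image f) z ⊆ (univ.filter (fun i => G.Adj z (f i))).image f := by
      intro v hv
      rw [mem_nb, mem_image] at hv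
      obtain ⟨⟨i, _, hi⟩, h2⟩ := hv
      rw [mem_image]
      refine ⟨i, ?_, hi⟩
      rw [mem_filter]
      rw [← hi] at h2
      exact ⟨mem_univ i, h2⟩
    have e2 : (nb G (univ.image f) z).card ≤ (univ.filter (fun i => G.Adj z (f i))).card :=
      (card_le_card e1).trans card_image_le
    have e3 : ∑ i, g (f i) = ((univ.filter (fun i => G.Adj z (f i))).card : ℝ) := sum_boole _ _
    rw [e3]
    exact_mod_cast e2
  have hx0 : ∀ f : Fin (p + 3) → V, 0 ≤ ∑ i, g (f i) := fun f => sum_nonneg fun i _ => hg _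
  refine ⟨?_, ?_, ?_⟩
  · rw [t1]
    have e1 := PRF8_cnt P g hg y hy ∅
    simp only [prod_empty, card_empty, Nat.sub_zero, one_mul, sum_const, nsmul_eq_mul,
      mul_one] at e1
    refine le_trans ?_ e1
    exact_mod_cast card_le_card hsub
  · rw [t2 (fun L => ((nb G L z).card : ℝ))]
    calc ∑ f ∈ trv G P, ((nb G (univ.image f) z).card : ℝ)
        ≤ ∑ f ∈ trv G P, ∑ i, g (f i) := sum_le_sum fun f _ => hB f
      _ ≤ ∑ f ∈ Fintype.piFinset P, ∑ i, g (f i) :=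
          sum_le_sum_of_subset_of_nonneg hsub fun f _ _ => hx0 f
      _ = ∑ i, ∑ f ∈ Fintype.piFinset P, g (f i) := sum_comm
      _ ≤ ∑ i, ((nb G (P i) z).card : ℝ) * y ^ (p + 2) := by
          refine sum_le_sum fun i _ => ?_
          have e1 := PRF8_cnt P g hg y hy {i}
          simp only [prod_singleton, card_singleton] at e1
          rw [hn i] at e1
          exact e1
      _ = _ := by rw [sum_mul]
  · rw [t2 (fun L => ((nb G L z).card : ℝ) ^ 2)]
    have hsq : ∀ x : Fin (p + 3) → ℝ, (∑ i, x i) ^ 2 =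
        ∑ i, x i * x i + ∑ i, ∑ k ∈ univ.erase i, x i * x k := by
      intro x
      rw [sq, sum_mul_sum, ← sum_add_distrib]
      refine sum_congr rfl fun i _ => ?_
      exact (add_sum_erase univ (fun k => x i * x k) (mem_univ i)).symm
    calc ∑ f ∈ trv G P, ((nb G (univ.image f) z).card : ℝ) ^ 2
        ≤ ∑ f ∈ trv G P, (∑ i, g (f i)) ^ 2 :=
          sum_le_sum fun f _ => pow_le_pow_left₀ (Nat.cast_nonneg _) (hB f) 2
      _ ≤ ∑ f ∈ Fintype.piFinset P, (∑ i, g (f i)) ^ 2 :=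
          sum_le_sum_of_subset_of_nonneg hsub fun f _ _ => sq_nonneg _
      _ = ∑ i, ∑ f ∈ Fintype.piFinset P, g (f i) +
            ∑ i, ∑ k ∈ univ.erase i, ∑ f ∈ Fintype.piFinset P, g (f i) * g (f k) := by
          rw [sum_congr rfl fun f _ => hsq (fun i => g (f i)), sum_add_distrib, sum_comm]
          congr 1
          · refine sum_congr rfl fun i _ => sum_congr rfl fun f _ => hg2 _
          · rw [sum_comm]
            refine sum_congr rfl fun i _ => ?_
            rw [sum_comm]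
      _ ≤ ∑ i, ((nb G (P i) z).card : ℝ) * y ^ (p + 2) +
            ∑ i, ∑ k ∈ univ.erase i,
              ((nb G (P i) z).card : ℝ) * ((nb G (P k) z).card : ℝ) * y ^ (p + 1) := by
          refine add_le_add (sum_le_sum fun i _ => ?_)
            (sum_le_sum fun i _ => sum_le_sum fun k hk => ?_)
          · have e1 := PRF8_cnt P g hg y hy {i}
            simp only [prod_singleton, card_singleton] at e1
            rw [hn i] at e1
            exact e1
          · have hne : i ≠ k := fun h => (mem_erase.1 hk).1 h.symm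
            have e1 := PRF8_cnt P g hg y hy {i, k}
            rw [card_pair hne, prod_pair hne, hn i, hn k] at e1
            simp only [prod_pair hne] at e1
            exact e1
      _ = _ := by
          rw [← sum_mul]
          congr 1
          rw [hsq (fun i => ((nb G (P i) z).card : ℝ))]
          simp only [← sum_mul, sq]
          ring

theorem PRF8_low (p j : ℕ) (A e ε C S κ c t : ℝ) (hj : j ≤ p + 3) (hA : 0 < A) (he0 : 0 ≤ e)
    (he : e ≤ 1 / 2) (hκ0 : 0 ≤ κ) (hκ : κ ≤ (2 * ((p : ℝ) + 3) * A) ^ j) 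
    (hc : c ≤ 2 ^ (p + 3)) (ht0 : 0 ≤ t) (ht : t ≤ C * A)
    (h1 : e * (2 * ((p : ℝ) + 3) * (2 * ((p : ℝ) + 3)) ^ (p + 3)) ≤ ε)
    (h2 : 2 * (2 ^ (p + 3) * (C * 2 ^ (p + 1))) ≤ ε * A)
    (h3 : ((1 - e) * A) ^ (p + 3 - j) * κ ≤ S + c * (t * (2 * A) ^ (p + 1))) :
    κ * A ^ (p + 3 - j) ≤ S + ε * A ^ (p + 3) := by
  obtain ⟨m, hm⟩ : ∃ m, m = p + 3 - j := ⟨_, rfl⟩
  rw [← hm] at h3 ⊢
  have hmj : m + j = p + 3 := by omega
  have hB : (1 : ℝ) ≤ 2 * ((p : ℝ) + 3) := by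
    have : (0 : ℝ) ≤ p := Nat.cast_nonneg p
    linarith
  have hmB : (m : ℝ) ≤ (p : ℝ) + 3 := by
    have : m ≤ p + 3 := by omega
    exact_mod_cast this
  have hber : 1 - ((p : ℝ) + 3) * e ≤ (1 - e) ^ m := by
    have := one_add_mul_le_pow (a := -e) (by linarith) m
    have h5 : (m : ℝ) * e ≤ ((p : ℝ) + 3) * e := mul_le_mul_of_nonneg_right hmB he0
    have h6 : (1 : ℝ) + -e = 1 - e := by ring
    rw [h6] at this
    nlinarith
  have hk1 : A ^ m * κ ≤ (2 * ((p : ℝ) + 3)) ^ (p + 3) * A ^ (p + 3) := by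
    calc A ^ m * κ ≤ A ^ m * (2 * ((p : ℝ) + 3) * A) ^ j :=
          mul_le_mul_of_nonneg_left hκ (by positivity)
      _ = (2 * ((p : ℝ) + 3)) ^ j * A ^ (p + 3) := by
          rw [mul_pow, ← hmj, pow_add]
          ring
      _ ≤ (2 * ((p : ℝ) + 3)) ^ (p + 3) * A ^ (p + 3) :=
          mul_le_mul_of_nonneg_right (pow_le_pow_right₀ hB hj) (by positivity)
  have h4 : A ^ m * κ - ((p : ℝ) + 3) * e * (A ^ m * κ) ≤ ((1 - e) * A) ^ m * κ := by
    rw [mul_pow]
    have : (1 - ((p : ℝ) + 3) * e) * (A ^ m * κ) ≤ (1 - e) ^ m * (A ^ m * κ) :=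
      mul_le_mul_of_nonneg_right hber (by positivity)
    linarith
  have h5 : ((p : ℝ) + 3) * e * (A ^ m * κ) ≤ ε / 2 * A ^ (p + 3) := by
    calc ((p : ℝ) + 3) * e * (A ^ m * κ)
        ≤ ((p : ℝ) + 3) * e * ((2 * ((p : ℝ) + 3)) ^ (p + 3) * A ^ (p + 3)) :=
          mul_le_mul_of_nonneg_left hk1 (by positivity)
      _ = (e * (2 * ((p : ℝ) + 3) * (2 * ((p : ℝ) + 3)) ^ (p + 3))) / 2 * A ^ (p + 3) := by ring
      _ ≤ ε / 2 * A ^ (p + 3) :=
          mul_le_mul_of_nonneg_right (by linarith) (by positivity)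
  have h6 : c * (t * (2 * A) ^ (p + 1)) ≤ ε / 2 * A ^ (p + 3) := by
    calc c * (t * (2 * A) ^ (p + 1)) ≤ 2 ^ (p + 3) * (t * (2 * A) ^ (p + 1)) :=
          mul_le_mul_of_nonneg_right hc (by positivity)
      _ ≤ 2 ^ (p + 3) * (C * A * (2 * A) ^ (p + 1)) :=
          mul_le_mul_of_nonneg_left (mul_le_mul_of_nonneg_right ht (by positivity))
            (by positivity)
      _ = 2 * (2 ^ (p + 3) * (C * 2 ^ (p + 1))) / 2 * A ^ (p + 2) := by
          rw [mul_pow 2 A, pow_succ A (p + 1)]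
          ring
      _ ≤ ε * A / 2 * A ^ (p + 2) :=
          mul_le_mul_of_nonneg_right (by linarith) (by positivity)
      _ = ε / 2 * A ^ (p + 3) := by
          rw [pow_succ A (p + 2)]
          ring
  have h7 : κ * A ^ m = A ^ m * κ := mul_comm _ _
  rw [h7]
  linarith

theorem PRF8_un {V : Type} [DecidableEq V] (G : SimpleGraph V) {b : ℕ}
    (P : Fin b → Finset V) (hP : Par G P) (z : V) :
    ((nb G (un P) z).card : ℝ) = ∑ i, ((nb G (P i) z).card : ℝ) := by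
  have e1 : nb G (un P) z = univ.biUnion (fun i => nb G (P i) z) := by
    ext v
    simp only [mem_nb, un, mem_biUnion, mem_univ, true_and]
    constructor
    · rintro ⟨⟨i, hi⟩, h⟩
      exact ⟨i, hi, h⟩
    · rintro ⟨i, hi, h⟩
      exact ⟨⟨i, hi⟩, h⟩
  rw [e1, card_biUnion]
  · push_cast
    rfl
  · intro i _ k _ hik
    exact (hP.dis i k hik).mono (nb_subset G _ _) (nb_subset G _ _)

theorem PRF8_cs (p : ℕ) (n : Fin (p + 3) → ℝ) (hn : ∀ i, 0 ≤ n i) (k0 : Fin (p + 3)) (s : ℝ)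
    (hs : n k0 ≤ s) :
    (∑ i, n i) ^ 2 - ∑ i, n i ^ 2 ≤
      ((p : ℝ) + 1) / ((p : ℝ) + 2) * (∑ i, n i) ^ 2 + 2 * (∑ i, n i) * s / ((p : ℝ) + 2) := by
  have h1 := sq_sum_le_card_mul_sum_sq (s := univ.erase k0) (f := n)
  rw [card_erase_of_mem (mem_univ k0), card_univ, Fintype.card_fin] at h1
  have h2 : ((p + 3 - 1 : ℕ) : ℝ) = (p : ℝ) + 2 := by
    have : p + 3 - 1 = p + 2 := by omega
    rw [this]
    push_cast
    ring
  rw [h2] at h1
  have h3 := add_sum_erase univ n (mem_univ k0)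
  have h4 := add_sum_erase univ (fun i => n i ^ 2) (mem_univ k0)
  have hp : (0 : ℝ) < (p : ℝ) + 2 := by positivity
  obtain ⟨S, hS⟩ : ∃ S, S = ∑ i, n i := ⟨_, rfl⟩
  obtain ⟨Q, hQ⟩ : ∃ Q, Q = ∑ i, n i ^ 2 := ⟨_, rfl⟩
  obtain ⟨S', hS'⟩ : ∃ S', S' = ∑ i ∈ univ.erase k0, n i := ⟨_, rfl⟩
  obtain ⟨Q', hQ'⟩ : ∃ Q', Q' = ∑ i ∈ univ.erase k0, n i ^ 2 := ⟨_, rfl⟩
  rw [← hS, ← hQ]
  rw [← hS, ← hS'] at h3
  rw [← hQ, ← hQ'] at h4
  rw [← hS', ← hQ'] at h1
  have h0 := hn k0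
  have hS0 : 0 ≤ S' := by
    rw [hS']
    exact sum_nonneg fun i _ => hn i
  have h5 : S ^ 2 - 2 * S * s ≤ S' ^ 2 := by
    have : S' = S - n k0 := by linarith
    rw [this]
    nlinarith [mul_le_mul_of_nonneg_left hs (by linarith : (0 : ℝ) ≤ S), sq_nonneg (n k0)]
  have h6 : Q' ≤ Q := by nlinarith [sq_nonneg (n k0)]
  have h7 : S ^ 2 - 2 * S * s ≤ ((p : ℝ) + 2) * Q :=
    h5.trans (h1.trans (mul_le_mul_of_nonneg_left h6 hp.le))
  have h8 : ((p : ℝ) + 1) / ((p : ℝ) + 2) * S ^ 2 + 2 * S * s / ((p : ℝ) + 2) - (S ^ 2 - Q) =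
      (((p : ℝ) + 2) * Q - (S ^ 2 - 2 * S * s)) / ((p : ℝ) + 2) := by
    field_simp
    ring
  have h9 : 0 ≤ (((p : ℝ) + 2) * Q - (S ^ 2 - 2 * S * s)) / ((p : ℝ) + 2) :=
    div_nonneg (by linarith) hp.le
  linarith

theorem PRF8_non {V : Type} (G : SimpleGraph V) (X : Finset V) (z : V) :
    ((nb G X z).card : ℝ) + ((non G X z).card : ℝ) = (X.card : ℝ) := by
  classical
  have h := card_filter_add_card_filter_not (s := X) (fun y => G.Adj z y)
  have e1 : X.filter (fun y => G.Adj z y) = nb G X z := by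
    ext v
    rw [mem_nb, mem_filter]
  have e2 : X.filter (fun y => ¬ G.Adj z y) = non G X z := by
    ext v
    simp only [non, mem_filter]
  rw [e1, e2] at h
  exact_mod_cast h

theorem PRF_thm (h1 : TRVStmt) (_h2 : BRKStmt) (h3 : EXBStmt) (h4 : Pool.KR.NMSStmt) :
    PRFStmt := by
  intro p ε hε
  have hp0 : (0 : ℝ) ≤ p := Nat.cast_nonneg p
  have he1 : 0 < e1 p := by
    unfold e1
    positivity
  have he1' : e1 p ≤ 1 := by
    unfold e1
    rw [div_le_one (by positivity)]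
    have : (1 : ℝ) ≤ ((p : ℝ) + 3) ^ 3 := one_le_pow₀ (by linarith)
    linarith
  obtain ⟨B, hB⟩ : ∃ B : ℝ, B = (p : ℝ) + 3 := ⟨_, rfl⟩
  have hB3 : 3 ≤ B := by linarith
  obtain ⟨ζ, hζ⟩ : ∃ ζ : ℝ, ζ = min (ε / (4 * B)) (e1 p / 16) := ⟨_, rfl⟩
  have hζ0 : 0 < ζ := by
    rw [hζ]
    exact lt_min (by positivity) (by positivity)
  have hζ1 : ζ * (4 * B) ≤ ε := by
    rw [← le_div_iff₀ (by positivity), hζ]
    exact min_le_left _ _
  have hζ2 : ζ ≤ e1 p / 16 := by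
    rw [hζ]
    exact min_le_right _ _
  obtain ⟨δ, hδ⟩ : ∃ δ : ℝ, δ = min 1 (ε / (16 * B ^ 2)) := ⟨_, rfl⟩
  have hδ0 : 0 < δ := by
    rw [hδ]
    exact lt_min one_pos (by positivity)
  have hδ2 : δ * (16 * B ^ 2) ≤ ε := by
    rw [← le_div_iff₀ (by positivity), hδ]
    exact min_le_right _ _
  obtain ⟨e₀, he₀⟩ : ∃ e₀ : ℝ, e₀ = min (1 / 2) (min (δ / 2 ^ (p + 3))
    (min (ε / (2 * B * (2 * B) ^ (p + 3))) (e1 p / (16 * B)))) := ⟨_, rfl⟩
  have hq1 : 0 < e₀ := by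
    rw [he₀]
    refine lt_min (by norm_num) (lt_min (by positivity) (lt_min (by positivity) (by positivity)))
  have hq2 : e₀ ≤ 1 / 2 := by
    rw [he₀]
    exact min_le_left _ _
  have hq3 : e₀ * 2 ^ (p + 3) ≤ δ := by
    rw [← le_div_iff₀ (by positivity), he₀]
    exact (min_le_right _ _).trans (min_le_left _ _)
  have hq4 : e₀ * (2 * B * (2 * B) ^ (p + 3)) ≤ ε := by
    rw [← le_div_iff₀ (by positivity), he₀]
    exact (min_le_right _ _).trans ((min_le_right _ _).trans (min_le_left _ _))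
  have hq5 : e₀ * (16 * B) ≤ e1 p := by
    rw [← le_div_iff₀ (by positivity), he₀]
    exact (min_le_right _ _).trans ((min_le_right _ _).trans (min_le_right _ _))
  refine ⟨e₀, hq1, fun C => ?_⟩
  obtain ⟨a₁, ha₁⟩ := h4 p C ζ hζ0
  obtain ⟨a₂, ha₂⟩ := exists_nat_gt (2 * (2 ^ (p + 3) * (|C| * 2 ^ (p + 1))) / ε)
  refine ⟨max a₁ (a₂ + 1), ?_⟩
  intro a ha V _ G e W P U hS he0 hee hCB z hz
  classical
  have haa1 : a₁ ≤ a := (le_max_left _ _).trans ha
  have haa2 : a₂ + 1 ≤ a := (le_max_right _ _).trans ha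
  obtain ⟨A, hA⟩ : ∃ A : ℝ, A = (a : ℝ) := ⟨_, rfl⟩
  have hA2 : (a₂ : ℝ) + 1 ≤ A := by
    rw [hA]
    exact_mod_cast haa2
  have hA1 : 1 ≤ A := by
    have : (0 : ℝ) ≤ a₂ := Nat.cast_nonneg _
    linarith
  have hA0 : 0 < A := by linarith
  have hbig : 2 * (2 ^ (p + 3) * (|C| * 2 ^ (p + 1))) ≤ ε * A := by
    have h5 : 2 * (2 ^ (p + 3) * (|C| * 2 ^ (p + 1))) / ε ≤ A := by linarith
    rw [div_le_iff₀ hε] at h5
    linarith
  have hehalf : e ≤ 1 / 2 := hee.trans hq2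
  have hpar := hS.par
  -- sizes
  have hlo : ∀ i, (1 - e) * A ≤ ((P i).card : ℝ) := by
    rw [hA]
    exact hS.lo
  have hhi : ∀ i, ((P i).card : ℝ) ≤ (1 + e) * A := by
    rw [hA]
    exact hS.hi
  have hpow : ∀ m ≤ p + 3, ((1 + e) * A) ^ m ≤ (1 + δ) * A ^ m := by
    intro m hm
    rw [mul_pow]
    refine mul_le_mul_of_nonneg_right ?_ (by positivity)
    have h5 := PRF8_pow e he0 (by linarith) m
    have h6 : (2 : ℝ) ^ m ≤ 2 ^ (p + 3) := pow_le_pow_right₀ (by norm_num) hm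
    have h7 : ((2 : ℝ) ^ m - 1) * e ≤ 2 ^ (p + 3) * e := by
      refine mul_le_mul_of_nonneg_right (by linarith) he0
    have h8 : (2 : ℝ) ^ (p + 3) * e ≤ 2 ^ (p + 3) * e₀ :=
      mul_le_mul_of_nonneg_left hee (by positivity)
    linarith
  obtain ⟨n, hn⟩ : ∃ n : Fin (p + 3) → ℝ, n = fun i => ((nb G (P i) z).card : ℝ) := ⟨_, rfl⟩
  have hn0 : ∀ i, 0 ≤ n i := by
    intro i
    rw [hn]
    exact Nat.cast_nonneg _
  have hnle : ∀ i, n i ≤ (1 + e) * A := by
    intro i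
    refine le_trans ?_ (hhi i)
    have h5 : n i = ((nb G (P i) z).card : ℝ) := by rw [hn]
    rw [h5]
    exact_mod_cast card_le_card (nb_subset G (P i) z)
  have hnz : ((nb G (un P) z).card : ℝ) = ∑ i, n i := by
    rw [hn]
    exact PRF8_un G P hpar z
  obtain ⟨nz, hnzd⟩ : ∃ nz : ℝ, nz = ∑ i, n i := ⟨_, rfl⟩
  have hnz0 : 0 ≤ nz := by
    rw [hnzd]
    exact sum_nonneg fun i _ => hn0 i
  have hnzle : nz ≤ 2 * B * A := by
    have h5 : nz ≤ ∑ _i : Fin (p + 3), (1 + e) * A := by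
      rw [hnzd]
      exact sum_le_sum fun i _ => hnle i
    rw [sum_const, card_univ, Fintype.card_fin, nsmul_eq_mul] at h5
    push_cast at h5
    rw [← hB] at h5
    have h6 : B * ((1 + e) * A) ≤ B * (2 * A) :=
      mul_le_mul_of_nonneg_left (mul_le_mul_of_nonneg_right (by linarith) hA0.le) (by linarith)
    linarith
  obtain ⟨u1, u2, u3⟩ := PRF8_up h1 G p P hpar z ((1 + e) * A) hhi
  -- the lower bounds
  have hlow : ∀ j ≤ p + 3, (kc G (nb G (un P) z) j : ℝ) * A ^ (p + 3 - j) ≤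
      ∑ L ∈ clq G (un P) (p + 3), ((nb G L z).card.choose j : ℝ) + ε * A ^ (p + 3) := by
    intro j hj
    have h5 := h3 G p a e P he0 hehalf hpar (fun i => ⟨hS.lo i, hS.hi i⟩) z j hj
    rw [← hA] at h5
    refine PRF8_low p j A e ε |C| _ _ ((p + 3).choose j : ℝ) (tot G P : ℝ) hj hA0 he0 hehalf
      (Nat.cast_nonneg _) ?_ ?_ (Nat.cast_nonneg _) ?_ ?_ hbig h5
    · have h6 : (kc G (nb G (un P) z) j : ℝ) ≤ ((nb G (un P) z).card : ℝ) ^ j := by
        have h7 := (kc_le_choose G (nb G (un P) z) j).trans (Nat.choose_le_pow _ _)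
        exact_mod_cast h7
      refine h6.trans (pow_le_pow_left₀ (Nat.cast_nonneg _) ?_ j)
      rw [hnz, ← hnzd, ← hB]
      exact hnzle
    · have h6 := Nat.choose_le_two_pow (p + 3) j
      exact_mod_cast h6
    · refine hS.tot.trans ?_
      rw [← hA]
      exact mul_le_mul_of_nonneg_right (le_abs_self C) hA0.le
    · rw [← hB]
      exact (mul_le_mul_of_nonneg_right hee (by positivity)).trans hq4
  have hkc1 : ((nb G (un P) z).card : ℝ) = (kc G (nb G (un P) z) 1 : ℝ) := by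
    have h5 : kc G (nb G (un P) z) 1 = (nb G (un P) z).card := by
      rw [kc_eq]
      have h6 : clq G (nb G (un P) z) 1 = (nb G (un P) z).powersetCard 1 := by
        ext S
        rw [mem_clq, mem_powersetCard]
        constructor
        · rintro ⟨s1, s2, _⟩
          exact ⟨s1, s2⟩
        · rintro ⟨s1, s2⟩
          refine ⟨s1, s2, ?_⟩
          obtain ⟨x, rfl⟩ := card_eq_one.1 s2
          simp
      rw [h6, card_powersetCard, Nat.choose_one_right]
    rw [h5]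
  rw [← hA, hnz, ← hnzd]
  obtain ⟨k0, hk0⟩ := ha₁ a haa1 G e W P U hS he0 hehalf hCB z ((hS.cov z).2 (Or.inl hz))
  have hnk0 : n k0 ≤ ζ * A := by
    rw [hn, hA]
    exact hk0
  have hBsq : B ≤ B ^ 2 := by
    rw [sq]
    exact le_mul_of_one_le_left (by linarith) (by linarith)
  have hBδ : B * δ ≤ B ^ 2 * δ := mul_le_mul_of_nonneg_right hBsq hδ0.le
  have hBδ0 : 0 ≤ B ^ 2 * δ := by positivity
  have hδB : δ ≤ B ^ 2 * δ := by
    refine le_mul_of_one_le_left hδ0.le ?_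
    linarith
  have hBδε : 16 * (B ^ 2 * δ) ≤ ε := by linarith
  have hBζε : 4 * (B * ζ) ≤ ε := by linarith
  refine ⟨?_, ?_, ?_, ?_, ?_, hlow, ?_⟩
  · have h5 := hlow 0 (Nat.zero_le _)
    rw [kc_zero, Nat.cast_one, one_mul, Nat.sub_zero] at h5
    have h6 : ∑ L ∈ clq G (un P) (p + 3), ((nb G L z).card.choose 0 : ℝ) =
        (kc G (un P) (p + 3) : ℝ) := by
      simp [kc_eq]
    rw [h6] at h5
    linarith
  · refine u1.trans ((hpow (p + 3) le_rfl).trans ?_)
    refine mul_le_mul_of_nonneg_right ?_ (by positivity)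
    linarith
  · have h5 := hlow 1 (by omega)
    rw [← hkc1, hnz, ← hnzd] at h5
    have h6 : p + 3 - 1 = p + 2 := by omega
    rw [h6] at h5
    have h7 : ∑ L ∈ clq G (un P) (p + 3), ((nb G L z).card.choose 1 : ℝ) =
        ∑ L ∈ clq G (un P) (p + 3), ((nb G L z).card : ℝ) := by
      refine sum_congr rfl fun L _ => ?_
      rw [Nat.choose_one_right]
    rw [h7] at h5
    linarith
  · have h5 : (∑ i, ((nb G (P i) z).card : ℝ)) = nz := by rw [hnzd, hn]
    rw [h5] at u2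
    refine u2.trans ?_
    have h6 := mul_le_mul_of_nonneg_left (hpow (p + 2) (by omega)) hnz0
    refine h6.trans ?_
    have h7 : nz * (δ * A ^ (p + 2)) ≤ 2 * B * A * (δ * A ^ (p + 2)) :=
      mul_le_mul_of_nonneg_right hnzle (by positivity)
    have h8 : 2 * B * A * (δ * A ^ (p + 2)) = 2 * B * δ * A ^ (p + 3) := by
      rw [pow_succ A (p + 2)]
      ring
    have h9 : 2 * B * δ * A ^ (p + 3) ≤ ε * A ^ (p + 3) := by
      refine mul_le_mul_of_nonneg_right ?_ (by positivity)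
      linarith
    linarith
  · have h5 : (∑ i, ((nb G (P i) z).card : ℝ)) = nz := by rw [hnzd, hn]
    have h5' : (∑ i, ((nb G (P i) z).card : ℝ) ^ 2) = ∑ i, n i ^ 2 := by rw [hn]
    rw [h5, h5'] at u3
    refine u3.trans ?_
    have hcs := PRF8_cs p n hn0 k0 (ζ * A) hnk0
    rw [← hnzd] at hcs
    obtain ⟨Q, hQ⟩ : ∃ Q : ℝ, Q = ((p : ℝ) + 1) / ((p : ℝ) + 2) * nz ^ 2 +
      2 * nz * (ζ * A) / ((p : ℝ) + 2) := ⟨_, rfl⟩
    rw [← hQ] at hcs
    have hζ3 : ζ ≤ 1 := by linarith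
    have hfr : ((p : ℝ) + 1) / ((p : ℝ) + 2) ≤ 1 := by
      rw [div_le_one (by positivity)]
      linarith
    have hQ2 : 2 * nz * (ζ * A) / ((p : ℝ) + 2) ≤ nz * (ζ * A) := by
      rw [div_le_iff₀ (by positivity)]
      have h6 : 0 ≤ nz * (ζ * A) := by positivity
      have h7 : nz * (ζ * A) * 2 ≤ nz * (ζ * A) * ((p : ℝ) + 2) :=
        mul_le_mul_of_nonneg_left (by linarith) h6
      linarith
    have hnzζ : nz * (ζ * A) ≤ 2 * B * ζ * A ^ 2 := by
      have := mul_le_mul_of_nonneg_right hnzle (by positivity : (0 : ℝ) ≤ ζ * A)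
      linarith
    have hnz2 : nz ^ 2 ≤ 4 * B ^ 2 * A ^ 2 := by
      have := pow_le_pow_left₀ hnz0 hnzle 2
      linarith
    have hQ0 : 0 ≤ Q := by
      rw [hQ]
      positivity
    have hQle : Q ≤ 6 * B ^ 2 * A ^ 2 := by
      have h6 : ((p : ℝ) + 1) / ((p : ℝ) + 2) * nz ^ 2 ≤ 1 * nz ^ 2 :=
        mul_le_mul_of_nonneg_right hfr (sq_nonneg _)
      have h7 : 2 * B * ζ * A ^ 2 ≤ 2 * B ^ 2 * A ^ 2 := by
        refine mul_le_mul_of_nonneg_right ?_ (by positivity)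
        have h8 : B * ζ ≤ B * 1 := mul_le_mul_of_nonneg_left hζ3 (by linarith)
        linarith
      rw [hQ]
      linarith
    have h6 : (nz ^ 2 - ∑ i, n i ^ 2) * ((1 + e) * A) ^ (p + 1) ≤
        Q * ((1 + δ) * A ^ (p + 1)) := by
      have h7 : (nz ^ 2 - ∑ i, n i ^ 2) * ((1 + e) * A) ^ (p + 1) ≤
          Q * ((1 + e) * A) ^ (p + 1) := mul_le_mul_of_nonneg_right hcs (by positivity)
      exact h7.trans (mul_le_mul_of_nonneg_left (hpow (p + 1) (by omega)) hQ0)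
    have h7 := mul_le_mul_of_nonneg_left (hpow (p + 2) (by omega)) hnz0
    have h8 : nz * (δ * A ^ (p + 2)) ≤ 2 * B * δ * A ^ (p + 3) := by
      have := mul_le_mul_of_nonneg_right hnzle (by positivity : (0 : ℝ) ≤ δ * A ^ (p + 2))
      have h9 : 2 * B * A * (δ * A ^ (p + 2)) = 2 * B * δ * A ^ (p + 3) := by
        rw [pow_succ A (p + 2)]
        ring
      linarith
    have h9 : Q * (δ * A ^ (p + 1)) ≤ 6 * B ^ 2 * δ * A ^ (p + 3) := by
      have := mul_le_mul_of_nonneg_right hQle (by positivity : (0 : ℝ) ≤ δ * A ^ (p + 1))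
      have h10 : 6 * B ^ 2 * A ^ 2 * (δ * A ^ (p + 1)) = 6 * B ^ 2 * δ * A ^ (p + 3) := by
        rw [show p + 3 = (p + 1) + 2 by omega, pow_add A (p + 1) 2]
        ring
      linarith
    have h10 : 2 * nz * (ζ * A) / ((p : ℝ) + 2) * A ^ (p + 1) ≤ 2 * B * ζ * A ^ (p + 3) := by
      have := mul_le_mul_of_nonneg_right (hQ2.trans hnzζ)
        (by positivity : (0 : ℝ) ≤ A ^ (p + 1))
      have h11 : 2 * B * ζ * A ^ 2 * A ^ (p + 1) = 2 * B * ζ * A ^ (p + 3) := by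
        rw [show p + 3 = (p + 1) + 2 by omega, pow_add A (p + 1) 2]
        ring
      linarith
    have h11 : Q * A ^ (p + 1) = ((p : ℝ) + 1) / ((p : ℝ) + 2) * nz ^ 2 * A ^ (p + 1) +
        2 * nz * (ζ * A) / ((p : ℝ) + 2) * A ^ (p + 1) := by
      rw [hQ]
      ring
    have h12 : (2 * B * δ + 6 * B ^ 2 * δ + 2 * B * ζ) * A ^ (p + 3) ≤ ε * A ^ (p + 3) := by
      refine mul_le_mul_of_nonneg_right ?_ (by positivity)
      linarith
    linarith
  · obtain ⟨k, hk, hnon⟩ := hS.exc z hz k0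
    have h5 := PRF8_non G (P k) z
    have h6 : n k ≤ (1 + e) * A - e1 p / 4 * A := by
      have h7 : n k = ((nb G (P k) z).card : ℝ) := by rw [hn]
      have h8 := hhi k
      rw [← hA] at hnon
      linarith
    have h7 := add_sum_erase univ n (mem_univ k0)
    have hkm : k ∈ univ.erase k0 := mem_erase.2 ⟨hk, mem_univ k⟩
    have h8 := add_sum_erase (univ.erase k0) n hkm
    have h9 : ∑ i ∈ (univ.erase k0).erase k, n i ≤ ((p : ℝ) + 1) * ((1 + e) * A) := by
      have h10 : ∑ i ∈ (univ.erase k0).erase k, n i ≤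
          ∑ _i ∈ (univ.erase k0).erase k, (1 + e) * A := sum_le_sum fun i _ => hnle i
      rw [sum_const, card_erase_of_mem hkm, card_erase_of_mem (mem_univ k0), card_univ,
        Fintype.card_fin, nsmul_eq_mul] at h10
      have h11 : ((p + 3 - 1 - 1 : ℕ) : ℝ) = (p : ℝ) + 1 := by
        have : p + 3 - 1 - 1 = p + 1 := by omega
        rw [this]
        push_cast
        ring
      rw [h11] at h10
      exact h10
    have h10 : nz ≤ ζ * A + ((1 + e) * A - e1 p / 4 * A) + ((p : ℝ) + 1) * ((1 + e) * A) := by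
      rw [hnzd, ← h7, ← h8]
      linarith
    have h11 : e * (16 * B) ≤ e1 p := (mul_le_mul_of_nonneg_right hee (by positivity)).trans hq5
    have h12 : (ζ + ((p : ℝ) + 2) * e) * A ≤ e1 p / 8 * A := by
      refine mul_le_mul_of_nonneg_right ?_ hA0.le
      have h13 : ((p : ℝ) + 2) * e ≤ B * e := mul_le_mul_of_nonneg_right (by linarith) he0
      linarith
    linarith

end Pool.GU7
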